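import Pool.Agent.Lib.MP_90961b_co.Final

namespace Pool.Agent.Lib.MP_90961b_co

open Filter Real

lemma sqrt2_pow (m : ℕ) : √2 ^ m = exp (m * (log 2 / 2)) := by
  rw [← log_sqrt (by norm_num), exp_nat_mul, exp_log (by positivity)]

lemma ev_log (ε : ℝ) (hε : 0 < ε) : ∀ᶠ L : ℝ in atTop, log (6 * L) ≤ ε * L := by
  have h1 : ∀ᶠ x : ℝ in atTop, ‖log x‖ ≤ (ε / 6) * ‖x‖ := isLittleO_log_id_atTop.bound (by positivity)
  have h2 : Tendsto (fun L : ℝ => 6 * L) atTop atTop := tendsto_id.const_mul_atTop (by norm_num)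
  filter_upwards [h2.eventually h1, eventually_ge_atTop 0] with L hL h0
  rw [Real.norm_eq_abs, Real.norm_eq_abs, abs_of_nonneg (by positivity : (0 : ℝ) ≤ 6 * L)] at hL
  have := le_abs_self (log (6 * L))
  linarith

lemma key_ineq (c η L k c' e l lg : ℝ) (hc3 : 3 ≤ c) (hη : c ^ 2 / 4 - c + 1 / 3 = 4 * η)
    (hη0 : 0 < η) (hη1 : η ≤ 1 / 12) (hηL : 20 ≤ η * L) (hL1 : 240 ≤ L) (k1 : c * L ≤ k)
    (k3 : k ≤ 5 * L) (e1 : 2 * c' = k * (k - 1)) (e2 : ((2 - 6 * η) * L) ^ 2 ≤ 6 * e)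
    (hl : 0.69 < l) (hlg0 : 0 ≤ lg) (hlg : lg ≤ η ^ 2 / 100 * L) :
    2 * l + (k * l + k * lg) < -(k * (L * l)) + (c' + e) * (l / 2) := by
  have a0 : 3 * L ≤ c * L := by gcongr
  have a1 : (c ^ 2 / 4 - c) * L ^ 2 ≤ k ^ 2 / 4 - k * L := by
    have : 0 ≤ (k - c * L) * (k + c * L - 4 * L) := mul_nonneg (by linarith) (by linarith)
    nlinarith
  have a2 : (1 / 3 - 2 * η) * L ^ 2 ≤ e / 2 := by nlinarith [sq_nonneg (η * L)]
  have a3 : 2 * η * L ^ 2 - k / 4 ≤ (c' + e) / 2 - k * L := by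
    have : (c ^ 2 / 4 - c) * L ^ 2 = (4 * η - 1 / 3) * L ^ 2 := by rw [← hη]; ring
    linarith
  have a4 : k * lg ≤ 5 * L * (η ^ 2 / 100 * L) := by gcongr
  have b0 : 0 ≤ η * L ^ 2 := by positivity
  have a5 : 5 * L * (η ^ 2 / 100 * L) ≤ η * L ^ 2 * 0.69 := by
    have b1 : η * (η * L ^ 2) ≤ 1 * (η * L ^ 2) := mul_le_mul_of_nonneg_right (by linarith) b0
    linarith
  have a6 : η * L ^ 2 * 0.69 ≤ η * L ^ 2 * l := by gcongr
  have a7 : 2 + 5 / 4 * k < η * L ^ 2 := by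
    have : 20 * L ≤ η * L * L := by gcongr
    linarith
  have a8 : (2 + k + η * L ^ 2) * l < ((c' + e) / 2 - k * L) * l := by
    apply mul_lt_mul_of_pos_right _ (by linarith)
    linarith
  linarith

theorem breaker_param (c η L : ℝ) (n k d W M : ℕ) (hc3 : 3 ≤ c)
    (hη : c ^ 2 / 4 - c + 1 / 3 = 4 * η) (hη0 : 0 < η) (hη1 : η ≤ 1 / 12) (hηL : 20 ≤ η * L)
    (hlog : log (6 * L) ≤ η ^ 2 / 100 * L) (hnL : (n : ℝ) = exp (L * log 2))
    (k1 : c * L ≤ k) (k3 : (k : ℝ) ≤ 5 * L) (d1 : (d : ℝ) ≤ (2 - η) * L) (d2 : (2 - η) * L < d + 1)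
    (w1 : η * L ≤ W) (w2 : (W : ℝ) < η * L + 1) (m1 : (M : ℝ) ≤ (2 - 5 * η) * L)
    (m2 : (2 - 5 * η) * L < M + 1) (T : Fin k → Fin k → Prop) (hT : IsTournament T) :
    BreakerWins T (∅ : Finset (Arc n)) true := by
  have hl2 : (0.69 : ℝ) < log 2 := by have := log_two_gt_d9; linarith
  have hL0 : 0 < L := by
    by_contra h
    have : η * L ≤ 0 := mul_nonpos_of_nonneg_of_nonpos hη0.le (not_lt.1 h)
    linarith
  have hηL' : η * L ≤ 1 / 12 * L := by gcongr
  have hL1 : 240 ≤ L := by linarith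
  have k4 : 3 * L ≤ k := le_trans (by gcongr) k1
  have k0 : (0 : ℝ) < k := by linarith
  have h6 : 6 * L = exp (log (6 * L)) := (exp_log (by positivity)).symm
  have hW : (W : ℝ) ≤ k := by linarith
  have hηη : η ^ 2 * L ≤ η * L := by
    have : η * (η * L) ≤ 1 * (η * L) := mul_le_mul_of_nonneg_right (by linarith) (by linarith)
    linarith
  refine breaker_finite hT (1 / (k : ℝ) ^ 2) d W W M
    (by positivity) ?_ ?_ (by exact_mod_cast hW) ?_ ?_ ?_ ?_
  · apply one_div_le_one_div_of_le (by norm_num); nlinarith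
  · rw [le_div_iff₀ (by positivity), sqrt2_pow, hnL, one_div, ← exp_neg, ← exp_add]
    have a1 : 20 * (k : ℝ) * k ^ 2 ≤ (6 * L) ^ 5 := by
      have b1 : (k : ℝ) ^ 3 ≤ (5 * L) ^ 3 := pow_le_pow_left₀ k0.le k3 3
      have b2 : L ^ 3 ≤ L ^ 5 := pow_le_pow_right₀ (by linarith) (by norm_num)
      have b3 : 0 ≤ L ^ 5 := by positivity
      linarith
    have a2 : (6 * L) ^ 5 = exp (5 * log (6 * L)) := by
      conv_lhs => rw [h6, ← exp_nat_mul]
      norm_num
    calc _ = (20 * (k : ℝ) * k ^ 2) * exp (-(L * log 2) + d * (log 2 / 2)) := by ring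
      _ ≤ exp (5 * log (6 * L)) * exp (-(L * log 2) + d * (log 2 / 2)) := by
          rw [← a2]; gcongr
      _ ≤ 1 := by
          rw [← exp_add, exp_le_one_iff]
          have b1 : (d : ℝ) * (log 2 / 2) ≤ (2 - η) * L * (log 2 / 2) := by gcongr
          have b2 : η * L * 0.69 ≤ η * L * log 2 := by gcongr
          linarith
  · have b0 : 0 ≤ 1 - (W : ℝ) / k := by rw [sub_nonneg, div_le_one k0]; exact hW
    have a1 : (1 - (W : ℝ) / k) ^ W ≤ exp (-(η ^ 2 * L / 5)) := by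
      calc _ ≤ exp (-((W : ℝ) / k)) ^ W := by
            apply pow_le_pow_left₀ b0
            have := add_one_le_exp (-((W : ℝ) / k))
            linarith
        _ = exp (-((W : ℝ) * W / k)) := by rw [← exp_nat_mul]; congr 1; ring
        _ ≤ _ := by
            rw [exp_le_exp, neg_le_neg_iff, le_div_iff₀ k0]
            have b1 : (η * L) * (η * L) ≤ (W : ℝ) * W := by gcongr
            have b2 : η ^ 2 * L / 5 * k ≤ η ^ 2 * L / 5 * (5 * L) := by gcongr
            linarith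
    have a2 : (k : ℝ) * (k + 1) ^ 2 ≤ exp (3 * log (6 * L)) := by
      have : exp (3 * log (6 * L)) = (6 * L) ^ 3 := by
        conv_rhs => rw [h6, ← exp_nat_mul]
        norm_num
      rw [this]
      calc (k : ℝ) * (k + 1) ^ 2 ≤ (6 * L) * (6 * L) ^ 2 := by gcongr <;> linarith
        _ = _ := by ring
    calc _ ≤ exp (3 * log (6 * L)) * exp (-(η ^ 2 * L / 5)) :=
          mul_le_mul a2 a1 (pow_nonneg b0 _) (by positivity)
      _ < 1 := by
          rw [← exp_add, exp_lt_one_iff]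
          have : 0 < η ^ 2 * L := by positivity
          linarith
  · have : (M : ℝ) + 2 * W + W ≤ d := by linarith
    exact_mod_cast this
  · have : (d : ℝ) + 1 < k := by linarith
    exact_mod_cast this
  · intro c' e h1 h2
    have k5 : 1 ≤ k := by
      have : (1 : ℝ) ≤ k := by linarith
      exact_mod_cast this
    have e1 : 2 * (c' : ℝ) = k * (k - 1) := by
      have := congrArg (Nat.cast (R := ℝ)) h1
      push_cast [Nat.cast_sub k5] at this
      exact this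
    have e2 : ((2 - 6 * η) * L) ^ 2 ≤ 6 * e := by
      have a1 : (M : ℝ) * M ≤ 6 * e := by exact_mod_cast h2
      have a2 : (2 - 6 * η) * L ≤ M := by linarith
      have a3 : 0 ≤ (2 - 6 * η) * L := by linarith
      calc _ ≤ (M : ℝ) ^ 2 := pow_le_pow_left₀ a3 a2 2
        _ ≤ _ := by linarith
    have e3 : 1 / 2 ≤ (1 - 1 / (k : ℝ) ^ 2) ^ c' := by
      have a1 := one_add_mul_le_pow (a := -(1 / (k : ℝ) ^ 2)) (by
        have : 1 / (k : ℝ) ^ 2 ≤ 1 := by rw [div_le_one (by positivity)]; nlinarith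
        linarith) c'
      have a2 : (c' : ℝ) * (1 / (k : ℝ) ^ 2) ≤ 1 / 2 := by
        rw [mul_one_div, div_le_iff₀ (by positivity)]; linarith
      rw [← sub_eq_add_neg] at a1
      linarith
    have e4 : ((k : ℝ) + 1) ^ k ≤ exp (k * log (6 * L)) := by
      rw [exp_nat_mul, ← h6]
      exact pow_le_pow_left₀ (by positivity) (by linarith) k
    have e5 : (2 : ℝ) ^ k = exp (k * log 2) := by rw [exp_nat_mul, exp_log (by norm_num)]
    have e6 : (1 / (n : ℝ)) ^ k = exp (-(k * (L * log 2))) := by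
      rw [hnL, one_div, ← exp_neg, ← exp_nat_mul]; congr 1; ring
    have e7 : (4 : ℝ) = exp (2 * log 2) := by
      have := exp_nat_mul (log 2) 2
      rw [exp_log (by norm_num)] at this
      norm_num at this ⊢
      exact this.symm
    have key : 2 * log 2 + (k * log 2 + k * log (6 * L)) <
        -(k * (L * log 2)) + ((c' + e : ℕ) : ℝ) * (log 2 / 2) := by
      push_cast
      exact key_ineq c η L k c' e _ _ hc3 hη hη0 hη1 hηL hL1 k1 k3 e1 e2 hl2
        (log_nonneg (by linarith)) hlog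
    have key2 := exp_lt_exp.2 key
    rw [exp_add, exp_add, exp_add, ← e7, ← e5, ← e6, ← sqrt2_pow] at key2
    have p1 : (0 : ℝ) < 2 ^ k := by positivity
    have p2 : 0 ≤ (1 / (n : ℝ)) ^ k * √2 ^ (c' + e) := by positivity
    calc 2 * (2 ^ k * ((k : ℝ) + 1) ^ k) ≤ 2 * (2 ^ k * exp (k * log (6 * L))) := by gcongr
      _ < (1 / (n : ℝ)) ^ k * √2 ^ (c' + e) * (1 / 2) := by linarith
      _ ≤ (1 / (n : ℝ)) ^ k * √2 ^ (c' + e) * (1 - 1 / (k : ℝ) ^ 2) ^ c' := by gcongr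
      _ = _ := by ring

theorem breaker_exact (c : ℝ) (hc : 2 + 2 * √(2 / 3) < c) (hc4 : c ≤ 4) :
    ∀ᶠ n : ℕ in atTop, ∀ T : Fin ⌈c * logb 2 n⌉₊ → Fin ⌈c * logb 2 n⌉₊ → Prop, IsTournament T →
      BreakerWins T (∅ : Finset (Arc n)) true := by
  have hs : √(2 / 3) * √(2 / 3) = (2 / 3 : ℝ) := mul_self_sqrt (by norm_num)
  have hs1 : (1 / 2 : ℝ) ≤ √(2 / 3) := le_sqrt_of_sq_le (by norm_num)
  have hc3 : 3 ≤ c := by linarith
  obtain ⟨η, hη⟩ : ∃ η : ℝ, c ^ 2 / 4 - c + 1 / 3 = 4 * η := ⟨(c ^ 2 / 4 - c + 1 / 3) / 4, by ring⟩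
  have hη0 : 0 < η := by nlinarith
  have hη1 : η ≤ 1 / 12 := by nlinarith
  have hT : Tendsto (fun n : ℕ => logb 2 (n : ℝ)) atTop atTop :=
    (tendsto_logb_atTop (by norm_num)).comp tendsto_natCast_atTop_atTop
  filter_upwards [hT.eventually (ev_log (η ^ 2 / 100) (by positivity)),
    hT.eventually (eventually_ge_atTop (20 / η)), hT.eventually (eventually_ge_atTop 1),
    eventually_ge_atTop 1] with n hlog hL hL1 hn T hTT
  have hηL : 20 ≤ η * logb 2 (n : ℝ) := by rwa [div_le_iff₀ hη0, mul_comm] at hL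
  have hn0 : (0 : ℝ) < n := by exact_mod_cast hn
  have hl : 0 < log 2 := log_pos (by norm_num)
  refine breaker_param c η (logb 2 n) n _ ⌊(2 - η) * logb 2 n⌋₊ ⌈η * logb 2 n⌉₊
    ⌊(2 - 5 * η) * logb 2 n⌋₊ hc3 hη hη0 hη1 hηL hlog ?_ (Nat.le_ceil _) ?_
    (Nat.floor_le (mul_nonneg (by linarith) (by linarith))) (Nat.lt_floor_add_one _)
    (Nat.le_ceil _) (Nat.ceil_lt_add_one (by linarith))
    (Nat.floor_le (mul_nonneg (by linarith) (by linarith))) (Nat.lt_floor_add_one _) T hTT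
  · rw [logb, div_mul_cancel₀ _ hl.ne', exp_log hn0]
  · have h1 : (⌈c * logb 2 n⌉₊ : ℝ) < c * logb 2 n + 1 :=
      Nat.ceil_lt_add_one (mul_nonneg (by linarith) (by linarith))
    have h2 : c * logb 2 n ≤ 4 * logb 2 n := by gcongr
    linarith

theorem breaker_asym (c : ℝ) (hc : 2 + 2 * √(2 / 3) < c) :
    ∃ N : ℕ, ∀ n : ℕ, N ≤ n → ∀ k : ℕ, c * logb 2 n ≤ k → ∀ T : Fin k → Fin k → Prop,
      IsTournament T → BreakerWins T (∅ : Finset (Fin n × Fin n)) true := by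
  have hs : √(2 / 3) < (1 : ℝ) := by rw [sqrt_lt' (by norm_num)]; norm_num
  have h1 := breaker_exact (min c 4) (lt_min hc (by linarith)) (min_le_right _ _)
  obtain ⟨N, hN⟩ := eventually_atTop.1 h1
  refine ⟨max N 1, fun n hn k hk T hT => ?_⟩
  have hL : 0 ≤ logb 2 (n : ℝ) := logb_nonneg (by norm_num) (by exact_mod_cast le_of_max_le_right hn)
  have hle : ⌈min c 4 * logb 2 n⌉₊ ≤ k :=
    Nat.ceil_le.2 ((mul_le_mul_of_nonneg_right (min_le_left _ _) hL).trans hk)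
  have := hN n (le_of_max_le_left hn) (fun a b => T (Fin.castLE hle a) (Fin.castLE hle b))
    ⟨fun a => hT.1 _, fun a b hab => hT.2 _ _ fun e => hab (Fin.castLE_injective hle e)⟩
  refine this.mono ?_
  rintro D ⟨φ, hφ, h⟩
  exact ⟨fun a => φ (Fin.castLE hle a), hφ.comp (Fin.castLE_injective hle), fun a b e => h _ _ e⟩

end Pool.Agent.Lib.MP_90961b_co
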