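import Mathlib

namespace Pool.Agent.Lib.MP_90961b_co

/-- `T` (read `T a b` as an arc from `a` to `b`) is a tournament on `Fin k`. -/
def IsTournament {k : ℕ} (T : Fin k → Fin k → Prop) : Prop :=
  (∀ a, ¬ T a a) ∧ ∀ a b, a ≠ b → (T a b ↔ ¬ T b a)

/-- With `D` the set of arcs oriented so far, orienting the edge `uv` from `u` to `v` is a legal
move. -/
def Legal {n : ℕ} (D : Finset (Fin n × Fin n)) (u v : Fin n) : Prop :=
  u ≠ v ∧ (u, v) ∉ D ∧ (v, u) ∉ D

/-- The digraph `D` contains a copy of `T`. -/
def HasCopy {k n : ℕ} (T : Fin k → Fin k → Prop) (D : Finset (Fin n × Fin n)) : Prop :=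
  ∃ φ : Fin k → Fin n, Function.Injective φ ∧ ∀ a b, T a b → (φ a, φ b) ∈ D

/-- OBreaker has a winning strategy in the orientation game for `T` on `K_n` from the position in
which the arcs `D` are oriented; the flag is `true` when OMaker is to move. -/
inductive BreakerWins {k n : ℕ} (T : Fin k → Fin k → Prop) : Finset (Fin n × Fin n) → Bool → Prop
  | finished (D : Finset (Fin n × Fin n)) (turn : Bool) :
      (∀ u v, ¬ Legal D u v) → ¬ HasCopy T D → BreakerWins T D turn
  | maker (D : Finset (Fin n × Fin n)) :
      (∃ u v, Legal D u v) → (∀ u v, Legal D u v → BreakerWins T (insert (u, v) D) false) →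
      BreakerWins T D true
  | breaker (D : Finset (Fin n × Fin n)) (u v : Fin n) :
      Legal D u v → BreakerWins T (insert (u, v) D) true → BreakerWins T D false

end Pool.Agent.Lib.MP_90961b_co
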