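import Pool.Agent.Lib.MP_90961b_co.Round

namespace Pool.Agent.Lib.MP_90961b_co

open Classical Finset

variable {k n : ℕ}

lemma exists_hit_aux (hk : 0 < k) (W : ℕ) (hW : W ≤ k) (F : Finset (Finset (Fin k)))
    (hF : ∀ A ∈ F, W ≤ A.card) : ∀ r : ℕ, ∃ R : Finset (Fin k), R.card ≤ r ∧
      ((F.filter fun A => Disjoint A R).card : ℝ) ≤ F.card * (1 - (W : ℝ) / k) ^ r
  | 0 => ⟨∅, by simp, by simp⟩
  | r + 1 => by
    obtain ⟨R, hR, hU⟩ := exists_hit_aux hk W hW F hF r
    set U := F.filter fun A => Disjoint A R with hUdef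
    have hk' : (0 : ℝ) < k := by exact_mod_cast hk
    have hsum : ∑ z : Fin k, ((U.filter fun A => z ∈ A).card : ℝ) = ∑ A ∈ U, (A.card : ℝ) := by
      simp only [card_filter, Nat.cast_sum]
      rw [sum_comm]
      refine sum_congr rfl fun A _ => ?_
      simp
    have hge : ∑ _z : Fin k, (U.card * (W : ℝ) / k) ≤
        ∑ z : Fin k, ((U.filter fun A => z ∈ A).card : ℝ) := by
      rw [hsum, sum_const, card_univ, Fintype.card_fin, nsmul_eq_mul, mul_div_cancel₀ _ hk'.ne']
      have : ∑ _A ∈ U, (W : ℝ) ≤ ∑ A ∈ U, (A.card : ℝ) :=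
        sum_le_sum fun A hA => by exact_mod_cast hF A (mem_filter.1 hA).1
      simpa using this
    obtain ⟨z, -, hz⟩ := exists_le_of_sum_le ⟨⟨0, hk⟩, mem_univ _⟩ hge
    refine ⟨insert z R, (card_insert_le _ _).trans (by omega), ?_⟩
    have e1 : (F.filter fun A => Disjoint A (insert z R)) = U.filter fun A => ¬ z ∈ A := by
      ext A
      simp only [hUdef, mem_filter, disjoint_insert_right]
      tauto
    have e2 : ((U.filter fun A => z ∈ A).card : ℝ) + (U.filter fun A => ¬ z ∈ A).card = U.card := by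
      exact_mod_cast card_filter_add_card_filter_not (s := U) (fun A => z ∈ A)
    have h1 : 0 ≤ 1 - (W : ℝ) / k := by
      rw [sub_nonneg, div_le_one hk']; exact_mod_cast hW
    rw [e1, pow_succ, ← mul_assoc]
    calc ((U.filter fun A => ¬ z ∈ A).card : ℝ) ≤ U.card * (1 - (W : ℝ) / k) := by
          rw [mul_sub, mul_one, ← mul_div_assoc]; linarith
      _ ≤ _ := mul_le_mul_of_nonneg_right hU h1

noncomputable def nb (φ : Fin k → Fin n) (h : List (Arc n)) (y : Fin k) : Finset (Fin k) :=
  univ.filter fun z => played h (φ y) (φ z)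

lemma nb_mono (φ : Fin k → Fin n) {h h' : List (Arc n)} (hs : h <:+ h') (y : Fin k) :
    nb φ h y ⊆ nb φ h' y := by
  intro z hz
  simp only [nb, mem_filter, mem_univ, true_and, played] at hz ⊢
  exact hz.imp (fun e => hs.subset e) (fun e => hs.subset e)

lemma exists_hit (hk : 0 < k) (W r : ℕ) (hW : W ≤ k)
    (hr : (k : ℝ) * ((k : ℝ) + 1) ^ 2 * (1 - (W : ℝ) / k) ^ r < 1)
    (φ : Fin k → Fin n) (H : List (Arc n)) :
    ∃ R : Finset (Fin k), R.card ≤ r ∧ ∀ h h1 : List (Arc n), h <:+ H → h1 <:+ H → ∀ y,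
      Disjoint (nb φ h y \ nb φ h1 y) R → (nb φ h y \ nb φ h1 y).card < W := by
  let C : Fin k → Finset (Finset (Fin k)) := fun y => (H.tails.map fun h => nb φ h y).toFinset
  have hC : ∀ y A, A ∈ C y ↔ ∃ h, h <:+ H ∧ nb φ h y = A := by
    intro y A
    simp [C, List.mem_tails]
  have hCc : ∀ y, (C y).card ≤ k + 1 := by
    intro y
    have : (C y).card ≤ (range (k + 1)).card := by
      refine card_le_card_of_injOn Finset.card ?_ ?_
      · intro A _
        simp only [coe_range, Set.mem_Iio]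
        have := card_le_univ A
        simp only [Fintype.card_fin] at this
        omega
      · intro A hA B hB hAB
        obtain ⟨h, hh, rfl⟩ := (hC y A).1 hA
        obtain ⟨h', hh', rfl⟩ := (hC y B).1 hB
        rcases List.suffix_or_suffix_of_suffix hh hh' with e | e
        · exact eq_of_subset_of_card_le (nb_mono φ e y) hAB.ge
        · exact (eq_of_subset_of_card_le (nb_mono φ e y) hAB.le).symm
    simpa using this
  let F0 : Finset (Finset (Fin k)) :=
    univ.biUnion fun y => (C y ×ˢ C y).image fun p => p.1 \ p.2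
  have hF0 : F0.card ≤ k * (k + 1) ^ 2 := by
    refine card_biUnion_le.trans ?_
    calc _ ≤ ∑ _y : Fin k, (k + 1) ^ 2 := by
          refine sum_le_sum fun y _ => card_image_le.trans ?_
          rw [card_product, pow_two]
          exact Nat.mul_le_mul (hCc y) (hCc y)
      _ = _ := by simp
  obtain ⟨R, hR, hU⟩ := exists_hit_aux hk W hW (F0.filter fun A => W ≤ A.card)
    (fun A hA => (mem_filter.1 hA).2) r
  refine ⟨R, hR, fun h h1 hh hh1 y hd => ?_⟩
  by_contra hlt
  have hk' : (0 : ℝ) < k := by exact_mod_cast hk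
  have h1' : 0 ≤ 1 - (W : ℝ) / k := by
    rw [sub_nonneg, div_le_one hk']; exact_mod_cast hW
  have hpos : 0 < ((F0.filter fun A => W ≤ A.card).filter fun A => Disjoint A R).card := by
    refine card_pos.2 ⟨nb φ h y \ nb φ h1 y, ?_⟩
    simp only [mem_filter, F0, mem_biUnion, mem_univ, true_and, mem_image, mem_product]
    exact ⟨⟨⟨y, (nb φ h y, nb φ h1 y), ⟨(hC _ _).2 ⟨h, hh, rfl⟩, (hC _ _).2 ⟨h1, hh1, rfl⟩⟩, rfl⟩,
      not_lt.1 hlt⟩, hd⟩
  have h2 : (1 : ℝ) ≤ (((F0.filter fun A => W ≤ A.card).filter fun A => Disjoint A R).card : ℝ) := by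
    exact_mod_cast hpos
  have h3 : ((F0.filter fun A => W ≤ A.card).card : ℝ) ≤ k * ((k : ℝ) + 1) ^ 2 := by
    exact_mod_cast (card_filter_le _ _).trans hF0
  have h4 := mul_le_mul_of_nonneg_right h3 (pow_nonneg h1' r)
  linarith

section relabel
variable {T : Fin k → Fin k → Prop} {δ : ℝ} {d : ℕ}

lemma mult_congr {o o' : Obj k n} (h1 : o.1 = o'.1) {h : List (Arc n)}
    (hl : ∀ u, low o h u ↔ low o' h u) (a : Arc n) : mult T δ o h a = mult T δ o' h a := by
  have e1 : inside o a ↔ inside o' a := by unfold inside; rw [h1]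
  have e2 : compat T o a ↔ compat T o' a := by unfold compat; rw [h1]
  have e3 : early o h a ↔ early o' h a := by unfold early; rw [hl, hl]
  unfold mult
  simp only [e1, e2, e3]

lemma acc_cons_congr {o o' : Obj k n} (h1 : o.1 = o'.1) {h : List (Arc n)}
    (hl : ∀ u, low o h u ↔ low o' h u) (ha : ∀ u, acc o h u = acc o' h u) (a : Arc n) (u : Fin n) :
    acc o (a :: h) u = acc o' (a :: h) u := by
  have e1 : inside o a ↔ inside o' a := by unfold inside; rw [h1]
  have e3 : early o h a ↔ early o' h a := by unfold early; rw [hl, hl]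
  simp only [acc, e1, e3, ha]

lemma relabel {o o' : Obj k n} (h1 : o.1 = o'.1) (hg : Good o) (hg' : Good o') :
    ∀ h : List (Arc n), (∀ h', h' <:+ h → ∀ u, low o h' u ↔ low o' h' u) →
      (∀ u, acc o h u = acc o' h u) ∧ wt T δ d o h = wt T δ d o' h
  | [], _ => ⟨fun _ => rfl, by simp [wt, hg, hg', dom, h1]⟩
  | a :: h, hl => by
    obtain ⟨ia, iw⟩ := relabel h1 hg hg' h fun h' hh' => hl h' (hh'.trans (List.suffix_cons a h))
    have l0 := hl h (List.suffix_cons a h)
    have l1 := hl (a :: h) List.suffix_rfl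
    have ia' := acc_cons_congr h1 l0 ia a
    refine ⟨ia', ?_⟩
    have hv : valid d o (a :: h) ↔ valid d o' (a :: h) := by
      unfold valid
      simp only [l1, ia']
    rw [wt, wt, iw, mult_congr h1 l0]
    simp only [hv]

end relabel

lemma Proper.suffix : ∀ {H h : List (Arc n)}, Proper H → h <:+ H → Proper h
  | [], h, hp, hs => by rw [List.suffix_nil.1 hs]; trivial
  | a :: H, h, hp, hs => by
    rcases List.suffix_cons_iff.1 hs with rfl | hs
    · exact hp
    · exact Proper.suffix hp.1 hs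

lemma Proper.asymm : ∀ {h : List (Arc n)}, Proper h → ∀ u v, (u, v) ∈ h → (v, u) ∉ h
  | [], _, u, v, hm => by simp at hm
  | a :: h, hp, u, v, hm => by
    have ih := Proper.asymm hp.1
    obtain ⟨l1, l2, l3⟩ := hp.2
    simp only [List.mem_toFinset] at l2 l3
    simp only [List.mem_cons, not_or] at hm ⊢
    rcases hm with rfl | hm
    · refine ⟨?_, l3⟩
      intro e
      simp only [Prod.mk.injEq] at e
      exact l1 e.2
    · refine ⟨?_, ih u v hm⟩
      rintro rfl
      exact l3 hm

lemma Proper.noloop {h : List (Arc n)} (hp : Proper h) (u : Fin n) : ¬ played h u u := by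
  intro e
  have : (u, u) ∈ h := by unfold played at e; tauto
  exact hp.asymm u u this this

end Pool.Agent.Lib.MP_90961b_co
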