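import Pool.Agent.Lib.MP_90961b_co.Defs

namespace Pool.Agent.Lib.MP_90961b_co

open Classical Finset

abbrev Obj (k n : ℕ) := (Fin n → Option (Fin k)) × (Fin k → Option (Fin k))
abbrev Arc (n : ℕ) := Fin n × Fin n

variable {k n : ℕ}

def Good (o : Obj k n) : Prop :=
  (∀ u v b, o.1 u = some b → o.1 v = some b → u = v) ∧
  (∀ b z, o.2 b = some z → z = b ∨ o.2 z = none)

def played (h : List (Arc n)) (u w : Fin n) : Prop := (u, w) ∈ h ∨ (w, u) ∈ h

def low (o : Obj k n) (h : List (Arc n)) (u : Fin n) : Prop :=
  ∃ b z, o.1 u = some b ∧ o.2 b = some z ∧ ¬ ∃ w, o.1 w = some z ∧ played h u w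

def inside (o : Obj k n) (a : Arc n) : Prop := o.1 a.1 ≠ none ∧ o.1 a.2 ≠ none

def early (o : Obj k n) (h : List (Arc n)) (a : Arc n) : Prop := low o h a.1 ∧ low o h a.2

def compat (T : Fin k → Fin k → Prop) (o : Obj k n) (a : Arc n) : Prop :=
  ∃ b c, o.1 a.1 = some b ∧ o.1 a.2 = some c ∧ T b c

noncomputable def mult (T : Fin k → Fin k → Prop) (δ : ℝ) (o : Obj k n) (h : List (Arc n))
    (a : Arc n) : ℝ :=
  if inside o a then (if compat T o a then (if early o h a then 2 - 2 * δ else √2) else 0) else 1

noncomputable def sig (T : Fin k → Fin k → Prop) (δ : ℝ) (o : Obj k n) (h : List (Arc n))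
    (a : Arc n) : ℝ :=
  if inside o a then
    (if compat T o a then 1 else -1) * (if early o h a then 1 - δ else 1 / 2) else 0

noncomputable def acc (o : Obj k n) : List (Arc n) → Fin n → ℕ
  | [], _ => 0
  | a :: h, y => acc o h y +
      if (y = a.1 ∨ y = a.2) ∧ inside o a then (if early o h a then 2 else 1) else 0

def valid (d : ℕ) (o : Obj k n) (h : List (Arc n)) : Prop := ∀ y, low o h y → acc o h y ≤ d

noncomputable def dom (o : Obj k n) : Finset (Fin n) := univ.filter (fun u => o.1 u ≠ none)

noncomputable def wt (T : Fin k → Fin k → Prop) (δ : ℝ) (d : ℕ) (o : Obj k n) :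
    List (Arc n) → ℝ
  | [] => if Good o then (1 / (n : ℝ)) ^ (dom o).card else 0
  | a :: h => if valid d o (a :: h) then wt T δ d o h * mult T δ o h a else 0

noncomputable def del (o : Obj k n) (x : Fin n) : Obj k n := (Function.update o.1 x none, o.2)

lemma sqrt2_lb : (1 : ℝ) ≤ √2 := Real.one_le_sqrt.2 (by norm_num)
lemma sqrt2_ub : √2 ≤ (23 : ℝ) / 16 := Real.sqrt_le_iff.2 ⟨by norm_num, by norm_num⟩
lemma sqrt2_sq : √2 * √2 = (2 : ℝ) := Real.mul_self_sqrt (by norm_num)

section basic
variable {T : Fin k → Fin k → Prop} {δ : ℝ} {d : ℕ}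

lemma mult_nonneg (hδ : δ ≤ 1 / 16) (o : Obj k n) (h : List (Arc n)) (a : Arc n) :
    0 ≤ mult T δ o h a := by
  unfold mult
  split_ifs
  · linarith
  · positivity
  · exact le_rfl
  · norm_num

lemma mult_le_two (hδ0 : 0 ≤ δ) (o : Obj k n) (h : List (Arc n)) (a : Arc n) :
    mult T δ o h a ≤ 2 := by
  have := sqrt2_ub
  unfold mult
  split_ifs <;> linarith

lemma wt_nonneg (hδ : δ ≤ 1 / 16) (o : Obj k n) : ∀ h : List (Arc n), 0 ≤ wt T δ d o h
  | [] => by unfold wt; split_ifs <;> positivity
  | a :: h => by
    unfold wt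
    split_ifs
    · exact mul_nonneg (wt_nonneg hδ o h) (mult_nonneg hδ o h a)
    · exact le_rfl

lemma wt_cons_le (hδ : δ ≤ 1 / 16) (o : Obj k n) (h : List (Arc n)) (a : Arc n) :
    wt T δ d o (a :: h) ≤ wt T δ d o h * mult T δ o h a := by
  rw [wt]
  split_ifs
  · exact le_rfl
  · exact mul_nonneg (wt_nonneg hδ o h) (mult_nonneg hδ o h a)

lemma good_of_wt {o : Obj k n} : ∀ {h : List (Arc n)}, wt T δ d o h ≠ 0 → Good o
  | [], hw => by
    unfold wt at hw
    by_contra hg
    simp [hg] at hw
  | a :: h, hw => by
    rw [wt] at hw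
    split_ifs at hw
    · exact good_of_wt (left_ne_zero_of_mul hw)
    · exact absurd rfl hw

lemma valid_of_wt {o : Obj k n} : ∀ {h : List (Arc n)}, wt T δ d o h ≠ 0 → valid d o h
  | [], _ => fun y _ => by simp [acc]
  | a :: h, hw => by
    rw [wt] at hw
    split_ifs at hw with hv
    · exact hv
    · exact absurd rfl hw

lemma played_cons {h : List (Arc n)} {u w : Fin n} (a : Arc n) (hp : played h u w) :
    played (a :: h) u w := by
  unfold played at *
  simp only [List.mem_cons]
  tauto

lemma low_of_cons {o : Obj k n} {h : List (Arc n)} {a : Arc n} {u : Fin n}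
    (hl : low o (a :: h) u) : low o h u := by
  obtain ⟨b, z, h1, h2, h3⟩ := hl
  exact ⟨b, z, h1, h2, fun ⟨w, hw, hp⟩ => h3 ⟨w, hw, played_cons a hp⟩⟩

lemma mult_cons_le (hδ : δ ≤ 1 / 16) (o : Obj k n) (h : List (Arc n)) (p a : Arc n) :
    mult T δ o (p :: h) a ≤ mult T δ o h a := by
  have := sqrt2_ub
  unfold mult
  by_cases h1 : inside o a
  · by_cases h2 : compat T o a
    · by_cases h3 : early o (p :: h) a
      · have h4 : early o h a := ⟨low_of_cons h3.1, low_of_cons h3.2⟩
        simp [h1, h2, h3, h4]
      · simp only [h1, h2, h3, if_true, if_false]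
        split_ifs <;> linarith
    · simp [h1, h2]
  · simp [h1]

/-- deleting a labelled vertex keeps every other status -/
lemma low_del {o : Obj k n} (hg : Good o) {x : Fin n} {bx zx : Fin k} (hx : o.1 x = some bx)
    (hz : o.2 bx = some zx) (h : List (Arc n)) (u : Fin n) :
    low (del o x) h u ↔ u ≠ x ∧ low o h u := by
  unfold low del
  constructor
  · rintro ⟨b, z, h1, h2, h3⟩
    have hux : u ≠ x := by
      rintro rfl
      simp at h1
    simp only [Function.update_of_ne hux] at h1
    refine ⟨hux, b, z, h1, h2, ?_⟩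
    rintro ⟨w, hw, hp⟩
    apply h3
    have hwx : w ≠ x := by
      rintro rfl
      rw [hx] at hw
      obtain rfl : bx = z := by simpa using hw
      rcases hg.2 b bx h2 with rfl | h4
      · exact hux (hg.1 _ _ _ h1 hx)
      · rw [h4] at hz; simp at hz
    exact ⟨w, by simp only [Function.update_of_ne hwx]; exact hw, hp⟩
  · rintro ⟨hux, b, z, h1, h2, h3⟩
    refine ⟨b, z, by simp only [Function.update_of_ne hux]; exact h1, h2, ?_⟩
    rintro ⟨w, hw, hp⟩
    apply h3
    have hwx : w ≠ x := by
      rintro rfl
      simp at hw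
    simp only [Function.update_of_ne hwx] at hw
    exact ⟨w, hw, hp⟩

lemma inside_del (o : Obj k n) (x : Fin n) (a : Arc n) :
    inside (del o x) a ↔ a.1 ≠ x ∧ a.2 ≠ x ∧ inside o a := by
  unfold inside del
  by_cases h1 : a.1 = x
  · simp [h1]
  · by_cases h2 : a.2 = x
    · simp [h2]
    · simp [h1, h2]

lemma good_del {o : Obj k n} (hg : Good o) (x : Fin n) : Good (del o x) := by
  refine ⟨?_, hg.2⟩
  intro u v b hu hv
  unfold del at hu hv
  have hux : u ≠ x := by rintro rfl; simp at hu
  have hvx : v ≠ x := by rintro rfl; simp at hv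
  simp only [Function.update_of_ne hux, Function.update_of_ne hvx] at hu hv
  exact hg.1 u v b hu hv

lemma acc_del_le {o : Obj k n} (hg : Good o) {x : Fin n} {bx zx : Fin k} (hx : o.1 x = some bx)
    (hz : o.2 bx = some zx) (y : Fin n) : ∀ h : List (Arc n), acc (del o x) h y ≤ acc o h y
  | [] => le_rfl
  | a :: h => by
    have ih := acc_del_le hg hx hz y h
    simp only [acc]
    refine Nat.add_le_add ih ?_
    by_cases h1 : (y = a.1 ∨ y = a.2) ∧ inside (del o x) a
    · have h2 := (inside_del o x a).1 h1.2
      have h3 : early (del o x) h a ↔ early o h a := by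
        unfold early
        rw [low_del hg hx hz, low_del hg hx hz]
        tauto
      have h4 : (y = a.1 ∨ y = a.2) ∧ inside o a := ⟨h1.1, h2.2.2⟩
      rw [if_pos h1, if_pos h4]
      simp [h3]
    · rw [if_neg h1]; exact Nat.zero_le _

lemma wt_le_del (hδ0 : 0 ≤ δ) (hδ : δ ≤ 1 / 16) {o : Obj k n} {x : Fin n} {bx zx : Fin k}
    (hx : o.1 x = some bx) (hz : o.2 bx = some zx) : ∀ h : List (Arc n),
    wt T δ d o h ≤ (1 / (n : ℝ)) * √2 ^ (acc o h x) * wt T δ d (del o x) h
  | [] => by
    unfold wt
    by_cases hg : Good o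
    · rw [if_pos hg, if_pos (good_del hg x)]
      have : dom o = insert x (dom (del o x)) := by
        ext u
        simp only [dom, del, mem_filter, mem_univ, true_and, mem_insert]
        by_cases hu : u = x
        · simp [hu, hx]
        · simp [hu]
      have h2 : x ∉ dom (del o x) := by simp [dom, del]
      rw [this, card_insert_of_notMem h2]
      simp only [acc, pow_zero, mul_one, pow_succ]
      exact le_of_eq (by ring)
    · rw [if_neg hg]
      split_ifs <;> positivity
  | a :: h => by
    have ih := wt_le_del hδ0 hδ hx hz h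
    by_cases hw : wt T δ d o (a :: h) = 0
    · rw [hw]
      have := wt_nonneg (T := T) (d := d) hδ (del o x) (a :: h)
      positivity
    have hg := good_of_wt hw
    have hv := valid_of_wt hw
    have hv' : valid d (del o x) (a :: h) := by
      intro y hy
      exact (acc_del_le hg hx hz y _).trans (hv y ((low_del hg hx hz _ y).1 hy).2)
    rw [wt, wt, if_pos hv, if_pos hv']
    have hw0 := wt_nonneg (T := T) (d := d) hδ (del o x) h
    by_cases hax : a.1 = x ∨ a.2 = x
    · have h1 : mult T δ (del o x) h a = 1 := by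
        unfold mult
        rw [if_neg]
        rw [inside_del]; tauto
      have h2 : mult T δ o h a * √2 ^ (acc o h x) ≤ √2 ^ (acc o (a :: h) x) := by
        simp only [acc, pow_add]
        rw [mul_comm]
        apply mul_le_mul_of_nonneg_left _ (by positivity)
        have hax' : x = a.1 ∨ x = a.2 := by tauto
        unfold mult
        by_cases hi : inside o a
        · simp only [hi, hax', and_self, if_true]
          have := sqrt2_sq
          split_ifs
          · rw [pow_two]; linarith
          · simp
          · positivity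
          · positivity
        · simp [hi]
      rw [h1, mul_one]
      calc wt T δ d o h * mult T δ o h a
          ≤ (1 / (n : ℝ)) * √2 ^ (acc o h x) * wt T δ d (del o x) h * mult T δ o h a :=
            mul_le_mul_of_nonneg_right ih (mult_nonneg hδ o h a)
        _ = (1 / (n : ℝ)) * (mult T δ o h a * √2 ^ (acc o h x)) * wt T δ d (del o x) h := by ring
        _ ≤ _ := by gcongr
    · push Not at hax
      have h1 : mult T δ (del o x) h a = mult T δ o h a := by
        have e1 : inside (del o x) a ↔ inside o a := by rw [inside_del]; tauto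
        have e2 : compat T (del o x) a ↔ compat T o a := by
          unfold compat del
          simp only [Function.update_of_ne hax.1, Function.update_of_ne hax.2]
        have e3 : early (del o x) h a ↔ early o h a := by
          unfold early
          rw [low_del hg hx hz, low_del hg hx hz]
          tauto
        unfold mult
        simp only [e1, e2, e3]
      have h2 : acc o (a :: h) x = acc o h x := by
        simp only [acc]
        rw [if_neg]
        · rfl
        · rintro ⟨h3 | h3, -⟩
          · exact hax.1 h3.symm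
          · exact hax.2 h3.symm
      rw [h1, h2, ← mul_assoc]
      exact mul_le_mul_of_nonneg_right ih (mult_nonneg hδ o h a)

end basic

end Pool.Agent.Lib.MP_90961b_co
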