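import Pool.Agent.Lib.MP_90961b_co.Pot

namespace Pool.Agent.Lib.MP_90961b_co

open Classical Finset

variable {k n : ℕ} {T : Fin k → Fin k → Prop} {δ : ℝ} {d : ℕ}

noncomputable def Phi (T : Fin k → Fin k → Prop) (δ : ℝ) (d : ℕ) (h : List (Arc n)) : ℝ :=
  ∑ o : Obj k n, wt T δ d o h

noncomputable def score (T : Fin k → Fin k → Prop) (δ : ℝ) (d : ℕ) (h : List (Arc n))
    (a : Arc n) : ℝ := ∑ o : Obj k n, wt T δ d o h * sig T δ o h a

def single (o : Obj k n) (p y : Arc n) : Prop :=
  (inside o p ∧ ¬ inside o y) ∨ (¬ inside o p ∧ inside o y)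

def bad (o : Obj k n) (h : List (Arc n)) (p y : Arc n) : Prop :=
  inside o p ∧ inside o y ∧ (early o h p ∨ early o h y)

lemma sig_swap (hT : IsTournament T) {o : Obj k n} (hg : Good o) (h : List (Arc n))
    {u v : Fin n} (huv : u ≠ v) : sig T δ o h (v, u) = - sig T δ o h (u, v) := by
  have e1 : inside o (v, u) ↔ inside o (u, v) := by unfold inside; tauto
  have e2 : early o h (v, u) ↔ early o h (u, v) := by unfold early; tauto
  unfold sig
  simp only [e1, e2]
  by_cases hi : inside o (u, v)
  · obtain ⟨b, hb⟩ := Option.ne_none_iff_exists'.1 hi.1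
    obtain ⟨c, hc⟩ := Option.ne_none_iff_exists'.1 hi.2
    simp only at hb hc
    have hbc : b ≠ c := by
      rintro rfl
      exact huv (hg.1 _ _ _ hb hc)
    have e3 : compat T o (v, u) ↔ ¬ compat T o (u, v) := by
      unfold compat
      simp only [hb, hc, Option.some.injEq, exists_and_left, exists_eq_left']
      exact hT.2 c b hbc.symm
    simp only [hi, if_true, e3]
    by_cases h3 : compat T o (u, v) <;> simp only [h3, not_true, not_false_iff, if_true, if_false] <;>
      ring
  · simp [hi]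

lemma score_swap (hT : IsTournament T) (h : List (Arc n)) {u v : Fin n} (huv : u ≠ v) :
    score T δ d h (v, u) = - score T δ d h (u, v) := by
  unfold score
  rw [← sum_neg_distrib]
  refine sum_congr rfl fun o _ => ?_
  by_cases hw : wt T δ d o h = 0
  · simp [hw]
  · rw [sig_swap hT (good_of_wt hw) h huv]; ring

lemma obj_one (hδ0 : 0 ≤ δ) (hδ : δ ≤ 1 / 16) (o : Obj k n) (h : List (Arc n)) (p : Arc n) :
    mult T δ o h p - 1 ≤ sig T δ o h p := by
  have := sqrt2_ub
  unfold mult sig
  split_ifs <;> linarith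

lemma obj_round (hδ0 : 0 ≤ δ) (hδ : δ ≤ 1 / 16) (o : Obj k n) (h : List (Arc n)) (p y : Arc n) :
    mult T δ o h p * mult T δ o h y - 1 ≤ sig T δ o h p + sig T δ o h y -
      (if single o p y then δ else 0) + (if bad o h p y then 5 else 0) := by
  have h1 := sqrt2_ub
  have h2 := sqrt2_lb
  have h3 := sqrt2_sq
  unfold mult sig single bad
  by_cases a1 : inside o p <;> by_cases a2 : inside o y <;> by_cases a3 : compat T o p <;>
    by_cases a4 : compat T o y <;> by_cases a5 : early o h p <;> by_cases a6 : early o h y <;>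
    simp only [a1, a2, a3, a4, a5, a6, if_true, if_false, not_true, not_false_iff, and_true,
      and_false, true_and, false_and, or_false, false_or, or_true, true_or, and_self, or_self] <;>
    nlinarith

lemma sum_del_le (x : Fin n) (g : Obj k n → ℝ) (hg : ∀ o, 0 ≤ g o) :
    ∑ o : Obj k n, (if o.1 x ≠ none then g (del o x) else 0) ≤ k * ∑ o : Obj k n, g o := by
  have e1 : ∀ o : Obj k n, (if o.1 x ≠ none then g (del o x) else 0) =
      ∑ b : Fin k, if o.1 x = some b then g (del o x) else 0 := by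
    intro o
    cases hx : o.1 x with
    | none => simp
    | some c => simp
  simp only [e1]
  rw [sum_comm]
  have e2 : ∀ b : Fin k, (∑ o : Obj k n, if o.1 x = some b then g (del o x) else 0) ≤
      ∑ o : Obj k n, g o := by
    intro b
    rw [← sum_filter, ← sum_image (f := g) (g := fun o => del o x)]
    · exact sum_le_sum_of_subset_of_nonneg (subset_univ _) (fun o _ _ => hg o)
    · intro o ho o' ho' he
      simp only [coe_filter, mem_univ, true_and, Set.mem_ofPred_eq] at ho ho'
      simp only [del, Prod.mk.injEq] at he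
      refine Prod.ext ?_ he.2
      funext u
      by_cases hu : u = x
      · rw [hu, ho, ho']
      · have := congrFun he.1 u
        simpa [Function.update_of_ne hu] using this
  calc _ ≤ ∑ _b : Fin k, ∑ o : Obj k n, g o := sum_le_sum fun b _ => e2 b
    _ = _ := by simp

lemma bad_le (hδ0 : 0 ≤ δ) (hδ : δ ≤ 1 / 16) (h : List (Arc n)) {p y : Arc n} (hp : p.1 ≠ p.2)
    (hy : y.1 ≠ y.2) (h1 : y ≠ p) (h2 : y ≠ (p.2, p.1)) :
    ∑ o : Obj k n, (if bad o h p y then wt T δ d o h else 0) ≤
      4 * k * ((1 / (n : ℝ)) * √2 ^ d) *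
        ∑ o : Obj k n, (if single o p y then wt T δ d o h else 0) := by
  set g : Obj k n → ℝ := fun o => if single o p y then wt T δ d o h else 0 with hgdef
  have hg : ∀ o, 0 ≤ g o := fun o => by
    simp only [hgdef]
    split_ifs
    · exact wt_nonneg hδ o h
    · exact le_rfl
  set c : ℝ := (1 / (n : ℝ)) * √2 ^ d with hc
  have hc0 : 0 ≤ c := by positivity
  let F : Fin n → Obj k n → ℝ := fun x o => if o.1 x ≠ none then g (del o x) else 0
  have hF : ∀ x o, 0 ≤ F x o := fun x o => by
    simp only [F]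
    split_ifs
    · exact hg _
    · exact le_rfl
  have key : ∀ (o : Obj k n) (x : Fin n), low o h x → single (del o x) p y →
      wt T δ d o h ≤ c * F x o := by
    intro o x hl hs
    by_cases hw : wt T δ d o h = 0
    · rw [hw]; exact mul_nonneg hc0 (hF _ _)
    have hv := valid_of_wt hw x hl
    obtain ⟨b, z, hb, hz, -⟩ := hl
    have e : F x o = wt T δ d (del o x) h := by simp [F, hb, hgdef, hs]
    rw [e]
    refine (wt_le_del hδ0 hδ hb hz h).trans ?_
    apply mul_le_mul_of_nonneg_right _ (wt_nonneg hδ _ _)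
    apply mul_le_mul_of_nonneg_left _ (by positivity)
    exact pow_le_pow_right₀ sqrt2_lb hv
  have main : ∀ o : Obj k n, (if bad o h p y then wt T δ d o h else 0) ≤
      c * (F p.1 o + F p.2 o + F y.1 o + F y.2 o) := by
    intro o
    have f1 := hF p.1 o; have f2 := hF p.2 o; have f3 := hF y.1 o; have f4 := hF y.2 o
    split_ifs with hb
    · obtain ⟨i1, i2, he⟩ := hb
      obtain ⟨p1, p2⟩ := p
      obtain ⟨y1, y2⟩ := y
      simp only [ne_eq, Prod.mk.injEq, not_and] at hp hy h1 h2 f1 f2 f3 f4 ⊢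
      rcases he with he | he
      · by_cases q : p1 ≠ y1 ∧ p1 ≠ y2
        · have := key o p1 he.1 (Or.inr ⟨by rw [inside_del]; simp,
            by rw [inside_del]; exact ⟨q.1.symm, q.2.symm, i2⟩⟩)
          nlinarith
        · have q' : p2 ≠ y1 ∧ p2 ≠ y2 := by
            constructor
            · rintro rfl; grind
            · rintro rfl; grind
          have := key o p2 he.2 (Or.inr ⟨by rw [inside_del]; simp,
            by rw [inside_del]; exact ⟨q'.1.symm, q'.2.symm, i2⟩⟩)
          nlinarith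
      · by_cases q : y1 ≠ p1 ∧ y1 ≠ p2
        · have := key o y1 he.1 (Or.inl ⟨by rw [inside_del]; exact ⟨q.1.symm, q.2.symm, i1⟩,
            by rw [inside_del]; simp⟩)
          nlinarith
        · have q' : y2 ≠ p1 ∧ y2 ≠ p2 := by
            constructor
            · rintro rfl; grind
            · rintro rfl; grind
          have := key o y2 he.2 (Or.inl ⟨by rw [inside_del]; exact ⟨q'.1.symm, q'.2.symm, i1⟩,
            by rw [inside_del]; simp⟩)
          nlinarith
    · positivity
  calc _ ≤ ∑ o : Obj k n, c * (F p.1 o + F p.2 o + F y.1 o + F y.2 o) :=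
        sum_le_sum fun o _ => main o
    _ = c * (∑ o, F p.1 o + ∑ o, F p.2 o + ∑ o, F y.1 o + ∑ o, F y.2 o) := by
        rw [← mul_sum]; simp only [sum_add_distrib]
    _ ≤ c * (k * ∑ o, g o + k * ∑ o, g o + k * ∑ o, g o + k * ∑ o, g o) := by
        apply mul_le_mul_of_nonneg_left _ hc0
        have a1 := sum_del_le p.1 g hg
        have a2 := sum_del_le p.2 g hg
        have a3 := sum_del_le y.1 g hg
        have a4 := sum_del_le y.2 g hg
        simp only [F]
        linarith
    _ = _ := by ring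

lemma Phi_two (hδ0 : 0 ≤ δ) (hδ : δ ≤ 1 / 16) (hpay : 20 * k * ((1 / (n : ℝ)) * √2 ^ d) ≤ δ)
    (h : List (Arc n)) {p y : Arc n} (hp : p.1 ≠ p.2)
    (hy : y.1 ≠ y.2) (h1 : y ≠ p) (h2 : y ≠ (p.2, p.1))
    (hs : score T δ d h p + score T δ d h y ≤ 0) : Phi T δ d (y :: p :: h) ≤ Phi T δ d h := by
  have hb := bad_le (T := T) (d := d) hδ0 hδ h hp hy h1 h2
  have hG : 0 ≤ ∑ o : Obj k n, (if single o p y then wt T δ d o h else 0) := by
    refine sum_nonneg fun o _ => ?_
    split_ifs
    · exact wt_nonneg hδ o h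
    · exact le_rfl
  have step : ∀ o : Obj k n, wt T δ d o (y :: p :: h) ≤ wt T δ d o h +
      wt T δ d o h * sig T δ o h p + wt T δ d o h * sig T δ o h y
      - δ * (if single o p y then wt T δ d o h else 0)
      + 5 * (if bad o h p y then wt T δ d o h else 0) := by
    intro o
    have w0 := wt_nonneg (T := T) (d := d) hδ o h
    have a1 : wt T δ d o (y :: p :: h) ≤ wt T δ d o h * (mult T δ o h p * mult T δ o h y) := by
      calc _ ≤ wt T δ d o (p :: h) * mult T δ o (p :: h) y := wt_cons_le hδ o _ _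
        _ ≤ wt T δ d o (p :: h) * mult T δ o h y :=
          mul_le_mul_of_nonneg_left (mult_cons_le hδ o h p y) (wt_nonneg hδ o _)
        _ ≤ wt T δ d o h * mult T δ o h p * mult T δ o h y :=
          mul_le_mul_of_nonneg_right (wt_cons_le hδ o _ _) (mult_nonneg hδ o h y)
        _ = _ := by ring
    have a2 := mul_le_mul_of_nonneg_left (obj_round (T := T) hδ0 hδ o h p y) w0
    split_ifs at a2 ⊢ <;> nlinarith
  have tot := sum_le_sum fun o (_ : o ∈ (univ : Finset (Obj k n))) => step o
  simp only [sum_add_distrib, sum_sub_distrib, ← mul_sum] at tot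
  unfold Phi
  unfold score at hs
  nlinarith

lemma Phi_one (hδ0 : 0 ≤ δ) (hδ : δ ≤ 1 / 16) (h : List (Arc n)) {p : Arc n}
    (hs : score T δ d h p ≤ 0) : Phi T δ d (p :: h) ≤ Phi T δ d h := by
  have step : ∀ o : Obj k n, wt T δ d o (p :: h) ≤ wt T δ d o h +
      wt T δ d o h * sig T δ o h p := by
    intro o
    have w0 := wt_nonneg (T := T) (d := d) hδ o h
    have a1 := wt_cons_le (T := T) (d := d) hδ o h p
    have a2 := mul_le_mul_of_nonneg_left (obj_one (T := T) hδ0 hδ o h p) w0
    nlinarith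
  have tot := sum_le_sum fun o (_ : o ∈ (univ : Finset (Obj k n))) => step o
  simp only [sum_add_distrib] at tot
  unfold Phi
  unfold score at hs
  linarith

lemma Phi_first (hδ0 : 0 ≤ δ) (hδ : δ ≤ 1 / 16) (h : List (Arc n)) (p : Arc n) :
    Phi T δ d (p :: h) ≤ 2 * Phi T δ d h := by
  unfold Phi
  rw [mul_sum]
  refine sum_le_sum fun o _ => ?_
  have w0 := wt_nonneg (T := T) (d := d) hδ o h
  have a1 := wt_cons_le (T := T) (d := d) hδ o h p
  have a2 := mult_le_two (T := T) hδ0 o h p
  nlinarith

def Proper : List (Arc n) → Prop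
  | [] => True
  | a :: h => Proper h ∧ Legal h.toFinset a.1 a.2

lemma legal_of_insert {D : Finset (Arc n)} {a : Arc n} {u v : Fin n} (h : Legal (insert a D) u v) :
    Legal D u v ∧ (u, v) ≠ a ∧ (v, u) ≠ a := by
  unfold Legal at *
  simp only [mem_insert, not_or] at h
  tauto

theorem breaker_of_terminal (hT : IsTournament T) (hδ0 : 0 ≤ δ) (hδ : δ ≤ 1 / 16)
    (hpay : 20 * k * ((1 / (n : ℝ)) * √2 ^ d) ≤ δ) (B : ℝ)
    (hterm : ∀ h : List (Arc n), Proper h → (∀ u v, ¬ Legal h.toFinset u v) →
      Phi T δ d h ≤ B → ¬ HasCopy T h.toFinset) :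
    ∀ (m : ℕ) (h : List (Arc n)), Proper h → n * n ≤ h.toFinset.card + m → Phi T δ d h ≤ B →
      BreakerWins T h.toFinset false := by
  intro m
  induction m using Nat.strong_induction_on with
  | _ m ih =>
  intro h hh hm hB
  by_cases hex : ∃ u v, Legal h.toFinset u v
  swap
  · push Not at hex
    exact BreakerWins.finished _ _ hex (hterm h hh hex hB)
  obtain ⟨p, hp, hmin⟩ := exists_min_image (univ.filter fun a : Arc n => Legal h.toFinset a.1 a.2)
    (score T δ d h) (by obtain ⟨u, v, huv⟩ := hex; exact ⟨(u, v), by simpa using huv⟩)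
  simp only [mem_filter, mem_univ, true_and] at hp hmin
  have hswap : ∀ u v, Legal h.toFinset u v → score T δ d h p + score T δ d h (u, v) ≤ 0 := by
    intro u v huv
    have := hmin (v, u) ⟨huv.1.symm, huv.2.2, huv.2.1⟩
    rw [score_swap hT h huv.1] at this
    linarith
  refine BreakerWins.breaker _ p.1 p.2 hp ?_
  have hp1 : Proper (p :: h) := ⟨hh, hp⟩
  have e1 : insert (p.1, p.2) h.toFinset = (p :: h).toFinset := by simp
  rw [e1]
  by_cases hex2 : ∃ u v, Legal (p :: h).toFinset u v
  swap
  · push Not at hex2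
    refine BreakerWins.finished _ _ hex2 (hterm _ hp1 hex2 ?_)
    refine (Phi_one hδ0 hδ h ?_).trans hB
    have := hswap p.1 p.2 hp
    simp only [Prod.mk.eta] at this
    linarith
  refine BreakerWins.maker _ hex2 fun u v huv => ?_
  have e2 : insert (u, v) (p :: h).toFinset = ((u, v) :: p :: h).toFinset := by simp
  rw [e2]
  have huv' := huv
  rw [← e1] at huv'
  obtain ⟨l1, l2, l3⟩ := legal_of_insert huv'
  have c1 : (p :: h).toFinset.card = h.toFinset.card + 1 := by
    rw [← e1, card_insert_of_notMem hp.2.1]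
  have c2 : ((u, v) :: p :: h).toFinset.card = h.toFinset.card + 2 := by
    rw [← e2, card_insert_of_notMem huv.2.1, c1]
  have c3 : ((u, v) :: p :: h).toFinset.card ≤ n * n := by
    simpa using card_le_univ (((u, v) :: p :: h).toFinset)
  refine ih (m - 2) (by omega) _ ⟨hp1, huv⟩ (by omega) ?_
  refine (Phi_two hδ0 hδ hpay h hp.1 huv.1 l2 ?_ (hswap u v l1)).trans hB
  intro h3
  apply l3
  simp only [Prod.mk.injEq] at h3
  rw [h3.1, h3.2]

noncomputable def pinv (ρ : Fin n → Option (Fin k)) : Fin k → Option (Fin n) := fun b =>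
  if h : ∃ u, ρ u = some b then some h.choose else none

lemma pinv_eq {ρ : Fin n → Option (Fin k)} (hρ : ∀ u v b, ρ u = some b → ρ v = some b → u = v)
    (b : Fin k) (u : Fin n) : pinv ρ b = some u ↔ ρ u = some b := by
  unfold pinv
  split_ifs with h
  · constructor
    · intro e
      obtain rfl : h.choose = u := by simpa using e
      exact h.choose_spec
    · intro e
      rw [hρ _ _ _ h.choose_spec e]
  · simp only [false_iff]
    exact fun e => h ⟨u, e⟩

lemma sum_inj_le : ∑ ρ : Fin n → Option (Fin k),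
    (if (∀ u v b, ρ u = some b → ρ v = some b → u = v) then
      (1 / (n : ℝ)) ^ (univ.filter (fun u => ρ u ≠ none)).card else 0) ≤ 2 ^ k := by
  let f : Option (Fin n) → ℝ := fun x => if x = none then 1 else 1 / (n : ℝ)
  have hf : ∀ x, 0 ≤ f x := fun x => by simp only [f]; split_ifs <;> positivity
  let g : (Fin k → Option (Fin n)) → ℝ := fun φ => ∏ b, f (φ b)
  have hg : ∀ φ, 0 ≤ g φ := fun φ => prod_nonneg fun b _ => hf _
  have htot : ∑ φ, g φ ≤ 2 ^ k := by
    have : ∑ φ, g φ = ∏ _b : Fin k, ∑ x, f x := by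
      rw [Finset.prod_univ_sum]; simp [g]
    rw [this, prod_const, card_univ, Fintype.card_fin]
    apply pow_le_pow_left₀ (sum_nonneg fun x _ => hf x)
    rw [Fintype.sum_option]
    simp only [f, if_true, reduceCtorEq, if_false, sum_const, card_univ, Fintype.card_fin,
      nsmul_eq_mul]
    have : (n : ℝ) * (1 / n) ≤ 1 := by
      rcases Nat.eq_zero_or_pos n with rfl | hn
      · simp
      · rw [mul_one_div_cancel]; positivity
    linarith
  refine le_trans ?_ htot
  rw [← sum_filter]
  have e : ∀ ρ ∈ univ.filter (fun ρ : Fin n → Option (Fin k) =>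
      ∀ u v b, ρ u = some b → ρ v = some b → u = v),
      (1 / (n : ℝ)) ^ (univ.filter (fun u => ρ u ≠ none)).card = g (pinv ρ) := by
    intro ρ hρ
    simp only [mem_filter, mem_univ, true_and] at hρ
    simp only [g, f]
    rw [prod_ite, prod_const_one, one_mul, prod_const]
    congr 1
    refine card_bij (fun u hu => (Option.ne_none_iff_exists'.1 (mem_filter.1 hu).2).choose) ?_ ?_ ?_
    · intro u hu
      have := (Option.ne_none_iff_exists'.1 (mem_filter.1 hu).2).choose_spec
      simp only [mem_filter, mem_univ, true_and]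
      rw [(pinv_eq hρ _ u).2 this]; simp
    · intro u hu v hv huv
      have h1 := (Option.ne_none_iff_exists'.1 (mem_filter.1 hu).2).choose_spec
      have h2 := (Option.ne_none_iff_exists'.1 (mem_filter.1 hv).2).choose_spec
      rw [← huv] at h2
      exact hρ _ _ _ h1 h2
    · intro b hb
      obtain ⟨u, hu⟩ := Option.ne_none_iff_exists'.1 (mem_filter.1 hb).2
      have h1 := (pinv_eq hρ _ _).1 hu
      have hu' : u ∈ univ.filter (fun u => ρ u ≠ none) := by simp [h1]
      refine ⟨u, hu', ?_⟩
      have h2 := (Option.ne_none_iff_exists'.1 (mem_filter.1 hu').2).choose_spec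
      exact Option.some.inj (h2.symm.trans h1)
  rw [sum_congr rfl e, ← sum_image (f := g) (g := pinv)]
  · exact sum_le_sum_of_subset_of_nonneg (subset_univ _) (fun o _ _ => hg o)
  · intro ρ hρ ρ' hρ' he
    simp only [coe_filter, mem_univ, true_and, Set.mem_ofPred_eq] at hρ hρ'
    funext u
    apply Option.ext
    intro b
    rw [← pinv_eq hρ, ← pinv_eq hρ', he]

lemma Phi_nil : Phi T δ d ([] : List (Arc n)) ≤ 2 ^ k * ((k : ℝ) + 1) ^ k := by
  unfold Phi
  rw [Fintype.sum_prod_type]
  have h1 : ∀ ρ : Fin n → Option (Fin k), ∑ l : Fin k → Option (Fin k), wt T δ d (ρ, l) [] ≤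
      (if (∀ u v b, ρ u = some b → ρ v = some b → u = v) then
      (1 / (n : ℝ)) ^ (univ.filter (fun u => ρ u ≠ none)).card else 0) * ((k : ℝ) + 1) ^ k := by
    intro ρ
    have h2 : ∀ l : Fin k → Option (Fin k), wt T δ d (ρ, l) [] ≤
        (if (∀ u v b, ρ u = some b → ρ v = some b → u = v) then
        (1 / (n : ℝ)) ^ (univ.filter (fun u => ρ u ≠ none)).card else 0) := by
      intro l
      unfold wt
      by_cases hg : Good (ρ, l)
      · rw [if_pos hg, if_pos hg.1]; rfl
      · rw [if_neg hg]; split_ifs <;> positivity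
    refine (sum_le_sum fun l _ => h2 l).trans ?_
    rw [sum_const, card_univ, nsmul_eq_mul, mul_comm]
    simp
  refine (sum_le_sum fun ρ _ => h1 ρ).trans ?_
  rw [← sum_mul]
  exact mul_le_mul_of_nonneg_right sum_inj_le (by positivity)

theorem breaker_start (hT : IsTournament T) (hδ0 : 0 ≤ δ) (hδ : δ ≤ 1 / 16)
    (hpay : 20 * k * ((1 / (n : ℝ)) * √2 ^ d) ≤ δ)
    (hterm : ∀ h : List (Arc n), Proper h → (∀ u v, ¬ Legal h.toFinset u v) →
      Phi T δ d h ≤ 2 * (2 ^ k * ((k : ℝ) + 1) ^ k) → ¬ HasCopy T h.toFinset) :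
    BreakerWins T (∅ : Finset (Arc n)) true := by
  have h0 := Phi_nil (T := T) (δ := δ) (d := d) (n := n)
  by_cases hex : ∃ u v, Legal (∅ : Finset (Arc n)) u v
  · refine BreakerWins.maker _ hex fun u v huv => ?_
    have := breaker_of_terminal hT hδ0 hδ hpay _ hterm (n * n) [(u, v)] ⟨trivial, huv⟩ (by omega)
      ((Phi_first hδ0 hδ _ _).trans (by linarith))
    simpa using this
  · push Not at hex
    refine BreakerWins.finished _ _ hex (hterm [] trivial hex ?_)
    have : (0 : ℝ) ≤ 2 ^ k * ((k : ℝ) + 1) ^ k := by positivity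
    linarith

end Pool.Agent.Lib.MP_90961b_co
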